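import Pool.Agent.Helper99.SI.StA

set_option autoImplicit false

namespace Pool.Agent.Helper39.SI

open Pool.Agent.Helper99.SI

theorem hom_mul {L : Type} [Ring L] [Algebra ℂ L] [StarRing L] (B : ZGr L) {j k : ℤ} {y z : L}
    (hy : B.p j y = y) (hz : B.p k z = z) : B.p (j + k) (y * z) = y * z := by
  have h := B.mul j k y z
  rwa [hy, hz] at h

theorem hom_list {n : ℕ} {L : Type} [Ring L] [Algebra ℂ L] [StarRing L] (B : ZGr L)
    (x : Fin n → L) (hx : ∀ i, B.p 1 (x i) = x i) (μ : W n) :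
    B.p (μ.length : ℤ) (μ.map x).prod = (μ.map x).prod := by
  induction μ with
  | nil =>
    simp only [List.length_nil, List.map_nil, List.prod_nil, Nat.cast_zero]
    exact B.one
  | cons i μ ih =>
    rw [List.map_cons, List.prod_cons, List.length_cons]
    have h := hom_mul B (hx i) ih
    have e : ((μ.length + 1 : ℕ) : ℤ) = 1 + (μ.length : ℤ) := by
      push_cast
      ring
    rw [e]
    exact h

theorem hA2 : StA2 := by
  intro n L _ _ _ _ D l μ ν
  have h1 : D.g.p (μ.length : ℤ) (D.w μ) = D.w μ := hom_list D.g D.x D.gx μ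
  have h2 : D.g.p (ν.length : ℤ) (D.w ν) = D.w ν := hom_list D.g D.x D.gx ν
  have h3 : D.g.p (-(ν.length : ℤ)) (star (D.w ν)) = star (D.w ν) := by
    rw [D.g.st, h2]
  have h4 := hom_mul D.g h1 h3
  rw [← sub_eq_add_neg] at h4
  have h5 := D.g.pp l ((μ.length : ℤ) - ν.length) (D.w μ * star (D.w ν))
  rw [h4] at h5
  exact h5

end Pool.Agent.Helper39.SI
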